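import Pool.Agent.H546.L1.T163

set_option autoImplicit false

/-!
# The sum with `(-640320)³`: assertion (a) of Q1

The sum `∑_{k<p} (6k)!/((3k)! k!³) (-640320)^{-3k}` belongs to the elliptic curve `y² = x³ - 3x + 4z - 2`,
`1 - 2z = 557403√1630815/711822400`, with complex multiplication by the ring of integers of `ℚ(√-163)`.  Modulo `p²` the
sum is the square of `∑ C(3k,k) C(6k,3k) (z/432)^k` (Clausen).  The curve has the explicit endomorphism `(1+√-163)/2` of
degree `41`; over the Witt vectors of an algebraic closure of `ZMod p` a combination of `1` and this endomorphism of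
degree `p` lifts the Frobenius, and comparing the expansions of the invariant differential at infinity modulo `p²` gives
the truncated series modulo `p²`.
-/

open Finset

namespace Pool.Agent.Results.MP_db9bd2_nt.Chudnovsky163

/-- the sum `S_p = ∑_{k<p} (6k)!/((3k)! (k!)³) (-640320³)^{-k}` -/
def S (p : ℕ) : ℚ :=
  ∑ k ∈ range p, (((6 * k).factorial : ℚ) / (((3 * k).factorial : ℚ) * (k.factorial : ℚ) ^ 3)) / (-(640320 ^ 3)) ^ k

/-- congruence modulo `p²` of rational numbers: `p²` divides the numerator of `a - b` in lowest terms -/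
def Cong (p : ℕ) (a b : ℚ) : Prop := (p : ℤ) ^ 2 ∣ (a - b).num

local instance fact163a : Fact (Nat.Prime 163) := ⟨by norm_num⟩

theorem cong_of {p : ℕ} (hp : p.Prime) {a b : ℚ} (h : p.Coprime ((a - b) / (p : ℚ) ^ 2).den) : Cong p a b := by
  unfold Cong
  have hp0 : (p : ℚ) ≠ 0 := by exact_mod_cast hp.ne_zero
  obtain ⟨c, hc⟩ : ∃ c : ℚ, c = (a - b) / (p : ℚ) ^ 2 := ⟨_, rfl⟩
  rw [← hc] at h
  have e : a - b = (p : ℚ) ^ 2 * c := by rw [hc]; field_simp
  -- numerator of the product
  have h1 : (a - b).num * c.den = (p : ℤ) ^ 2 * c.num * (a - b).den := by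
    have h2 : ((a - b).num : ℚ) * c.den = (p : ℚ) ^ 2 * c.num * (a - b).den := by
      have e1 : ((a - b).num : ℚ) = (a - b) * (a - b).den := by
        rw [Rat.mul_den_eq_num]
      have e2 : (c.num : ℚ) = c * c.den := by rw [Rat.mul_den_eq_num]
      rw [e1, e2, e]
      ring
    exact_mod_cast h2
  have h3 : (p : ℤ) ^ 2 ∣ (a - b).num * c.den := by rw [h1, mul_assoc]; exact dvd_mul_right _ _
  have h4 : IsCoprime ((p : ℤ) ^ 2) (c.den : ℤ) := by
    apply IsCoprime.pow_left
    exact Nat.isCoprime_iff_coprime.mpr h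
  exact h4.dvd_of_dvd_mul_right h3

theorem leg41 : @legendreSym 41 ⟨by norm_num⟩ (-10005) = 1 := by decide +kernel

theorem small (p : ℕ) (hp : p.Prime) (h : p < 41) (x y : ℤ) (hxy : 4 * (p : ℤ) = x ^ 2 + 163 * y ^ 2) : False := by
  have hy : y = 0 := by
    by_contra h0
    have : 1 ≤ y ^ 2 := by
      have := sq_nonneg y
      have : y ^ 2 ≠ 0 := pow_ne_zero 2 h0
      omega
    have := sq_nonneg x
    have : (p : ℤ) < 41 := by exact_mod_cast h
    omega
  subst hy
  have h1 : x ^ 2 = 4 * p := by rw [hxy]; ring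
  have h2 : (2 : ℤ) ∣ x := by
    have : (2 : ℤ) ∣ x ^ 2 := ⟨2 * p, by rw [h1]; ring⟩
    exact Int.prime_two.dvd_of_dvd_pow this
  obtain ⟨w, rfl⟩ := h2
  have h3 : (p : ℤ) = w ^ 2 := by
    have : 4 * (p : ℤ) = 4 * w ^ 2 := by rw [← h1]; ring
    omega
  have h4 : p = w.natAbs ^ 2 := by
    zify
    rw [sq_abs]
    exact h3
  rw [h4] at hp
  exact Nat.Prime.not_prime_pow (le_refl 2) hp

theorem x41 (x y : ℤ) (hxy : 4 * ((41 : ℕ) : ℤ) = x ^ 2 + 163 * y ^ 2) : x ^ 2 = 1 := by
  push_cast at hxy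
  have hy : y ^ 2 = 1 := by
    have h1 : y ^ 2 ≤ 1 := by
      have : 163 * y ^ 2 ≤ 164 := by nlinarith [sq_nonneg x]
      omega
    have h2 : y ^ 2 ≠ 0 := by
      intro h0
      rw [h0] at hxy
      have hb : x < 13 := by nlinarith
      have hb2 : -13 < x := by nlinarith
      interval_cases x <;> omega
    have h3 := sq_nonneg y
    omega
  rw [hy] at hxy
  omega

theorem result (p : ℕ) [Fact p.Prime] (h5 : 5 < p) (h23 : p ≠ 23) (h29 : p ≠ 29) (h163 : p ≠ 163) :
    (jacobiSym p 163 = 1 → ∀ x y : ℤ, 4 * (p : ℤ) = x ^ 2 + 163 * y ^ 2 →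
      Cong p (S p) ((legendreSym p (-10005) : ℚ) * (x ^ 2 - 2 * p))) ∧
    (jacobiSym p 163 = -1 → Cong p (S p) 0) := by
  have hp : p.Prime := Fact.out
  have hp2 : p ≠ 2 := by omega
  have hM : ¬ (p : ℤ) ∣ -262537412640768000 := by
    refine Pool.Agent.H546.ndvd_fac [(2, 18), (3, 3), (5, 3), (23, 3), (29, 3)] ?_ (by norm_num)
    simp
    exact ⟨⟨by norm_num, hp2⟩, ⟨by norm_num, by omega⟩, ⟨by norm_num, by omega⟩, ⟨by norm_num, h23⟩,
      ⟨by norm_num, h29⟩⟩
  obtain ⟨wi, hwi⟩ := Pool.Agent.H546.inv_exists hM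
  have hj : jacobiSym p 163 = legendreSym 163 p := (jacobiSym.legendreSym.to_jacobiSym 163 p).symm
  rw [hj]
  have tr : ∀ E : ℤ, ∑ k ∈ range p, (k.centralBinom : ZMod (p ^ 2)) *
      ((Pool.Agent.H546.L1.u6 k : ℕ) : ZMod (p ^ 2)) * wi ^ k = ((E : ℤ) : ZMod (p ^ 2)) →
      Cong p (S p) (E : ℚ) := by
    intro E hE
    have h := Pool.Agent.H546.L1.tr6 hM hwi E hE
    have e : S p = ∑ k ∈ range p, (((6 * k).factorial : ℚ) / (((3 * k).factorial : ℚ) * (k.factorial : ℚ) ^ 3)) /
        (((-262537412640768000 : ℤ)) : ℚ) ^ k := by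
      unfold S
      refine sum_congr rfl fun k _ => ?_
      have e1 : (-(640320 : ℚ) ^ 3) = (((-262537412640768000 : ℤ)) : ℚ) := by norm_num
      rw [e1]
    rw [← e] at h
    exact cong_of hp h
  by_cases h41 : p = 41
  · subst h41
    refine ⟨fun _ x y hxy => ?_, fun h => ?_⟩
    · have hs := Pool.Agent.H546.L1.t163_41 wi hwi
      have hx : x ^ 2 = 1 := x41 x y hxy
      have := tr (-81) hs
      have hxq : (x : ℚ) ^ 2 = 1 := by exact_mod_cast hx
      have hleg : legendreSym 41 (-10005) = 1 := leg41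
      rw [hxq, hleg]
      push_cast at this ⊢
      norm_num at this ⊢
      exact this
    · exfalso
      have : legendreSym 163 ((41 : ℕ) : ℤ) = 1 := by decide +kernel
      rw [this] at h
      norm_num at h
  obtain ⟨m1, m2⟩ := Pool.Agent.H546.L1.t163_main p h5 h23 h29 h41 h163 hwi
  refine ⟨fun hl x y hxy => ?_, fun hl => ?_⟩
  · have hbig : 41 < p := by
      by_contra hlt
      exact small p hp (by omega) x y hxy
    have := tr _ (m1 x y hbig hl hxy)
    push_cast at this
    exact this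
  · have := tr 0 (by rw [m2 hl]; simp)
    push_cast at this
    exact this

end Pool.Agent.Results.MP_db9bd2_nt.Chudnovsky163
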